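import Mathlib
import Pool.Agent.Lib.helper22.NilSub

namespace Pool.Agent.Results.MP_ff4305_al.Rev

open FreeGroup (invRev)
open Pool.Agent.Lib.H10
open scoped commutatorElement

variable {X : Type}

/-- Wagner's relations together with the pairs `(w, 1)`, `w ∈ R` -/
def Rel (R : List (List (X × Bool))) (x y : FreeMonoid (X × Bool)) : Prop :=
  (∃ u : List (X × Bool), x = .ofList (u ++ invRev u ++ u) ∧ y = .ofList u) ∨
  (∃ u v : List (X × Bool), x = .ofList ((u ++ invRev u) ++ (v ++ invRev v)) ∧ y = .ofList ((v ++ invRev v) ++ (u ++ invRev u))) ∨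
  ∃ w ∈ R, x = .ofList w ∧ y = 1

/-- the special inverse monoid with relators `R` -/
abbrev Inv (R : List (List (X × Bool))) := (conGen (Rel R)).Quotient

/-- the group with relators `R` -/
abbrev Gp (R : List (List (X × Bool))) := PresentedGroup {g | ∃ w ∈ R, g = FreeGroup.mk w}

def q (R : List (List (X × Bool))) (u : List (X × Bool)) : Inv R := (conGen (Rel R)).mk' (.ofList u)

def pi (R : List (List (X × Bool))) (u : List (X × Bool)) : Gp R := PresentedGroup.mk _ (FreeGroup.mk u)

/-- the image of the right units in the group -/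
def Pre (R : List (List (X × Bool))) : Set (Gp R) := {g | ∃ u, (∃ t, q R u * t = 1) ∧ g = pi R u}

variable {R : List (List (X × Bool))}

theorem q_app (u v) : q R (u ++ v) = q R u * q R v := rfl
theorem pi_app (u v) : pi R (u ++ v) = pi R u * pi R v := by rw [pi, ← FreeGroup.mul_mk, map_mul]; rfl
theorem pi_inv (u) : pi R (invRev u) = (pi R u)⁻¹ := by rw [pi, ← FreeGroup.inv_mk, map_inv]; rfl
theorem pi_rel {w} (h : w ∈ R) : pi R w = 1 := PresentedGroup.one_of_mem ⟨w, h, rfl⟩
theorem w1 (u) : q R u * q R (invRev u) * q R u = q R u := (Con.eq _).2 (.of _ _ (.inl ⟨u, rfl, rfl⟩))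
theorem w2 (u v) : q R u * q R (invRev u) * (q R v * q R (invRev v)) = q R v * q R (invRev v) * (q R u * q R (invRev u)) :=
  (Con.eq _).2 (.of _ _ (.inr (.inl ⟨u, v, rfl, rfl⟩)))
theorem w3 {w} (h : w ∈ R) : q R w = 1 := (Con.eq _).2 (.of _ _ (.inr (.inr ⟨w, h, rfl, rfl⟩)))

def Le (a b : Inv R) : Prop := ∃ u, a = q R u * q R (invRev u) * b

theorem Le.left {a b : Inv R} (s) : Le a b → Le (q R s * a) (q R s * b)
  | ⟨u, h⟩ => ⟨s ++ u, by
    have := w2 (R := R) u (invRev s)
    rw [FreeGroup.invRev_invRev] at this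
    rw [h, FreeGroup.invRev_append, q_app, q_app]
    calc _ = q R s * (q R (invRev s) * q R s * (q R u * q R (invRev u))) * b := by
          conv_lhs => rw [← w1 s]
          simp only [mul_assoc]
      _ = _ := by rw [← this]; simp only [mul_assoc]⟩

theorem Le.trans {a b c : Inv R} : Le a b → Le b c → Le a c
  | ⟨u, h⟩, ⟨v, k⟩ => ⟨u ++ invRev u ++ v, by
    simp only [h, k, FreeGroup.invRev_append, FreeGroup.invRev_invRev, q_app]
    conv_rhs => rw [mul_assoc _ (q R v), ← mul_assoc (q R v), ← w2, ← mul_assoc, ← mul_assoc (_ * _) (q R u), w1]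
    simp only [mul_assoc]⟩

def up (l : List X) : List (X × Bool) := l.map (·, true)

def Rd (P : Submonoid (Gp R)) : List (X × Bool) → Gp R → Prop
  | [], y => y ∈ P
  | l :: u, y => y ∈ P ∧ Rd P u (y * pi R [l])

variable {P : Submonoid (Gp R)}

theorem Rd.mem {u y} (h : Rd P u y) : y ∈ P := by cases u; exacts [h, h.1]

theorem Rd.last {u y} (h : Rd P u y) : y * pi R u ∈ P := by
  induction u generalizing y with
  | nil => exact (mul_one y).symm ▸ h
  | cons l u ih => simpa only [mul_assoc, ← pi_app, List.singleton_append] using ih h.2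

theorem rd_app (u v y) : Rd P (u ++ v) y ↔ Rd P u y ∧ Rd P v (y * pi R u) := by
  induction u generalizing y with
  | nil => exact ⟨fun h => ⟨h.mem, (mul_one y).symm ▸ h⟩, fun h => mul_one y ▸ h.2⟩
  | cons l u ih => simp only [List.cons_append, Rd, ih, and_assoc, mul_assoc, ← pi_app, List.nil_append]

theorem rd_inv (u y) : Rd P (invRev u) (y * pi R u) ↔ Rd P u y := by
  have : ∀ u y, Rd P u y → Rd P (invRev u) (y * pi R u) := fun u => by
    induction u with
    | nil => exact fun y h => (mul_one y).symm ▸ h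
    | cons l u ih =>
      intro y h
      rw [← List.singleton_append, FreeGroup.invRev_append, rd_app, pi_app, ← mul_assoc, pi_inv, mul_inv_cancel_right]
      exact ⟨ih _ h.2, h.2.mem, show _ * pi R (invRev [l]) ∈ P by simpa [pi_inv] using h.1⟩
  exact ⟨fun h => by simpa [pi_inv] using this _ _ h, this u y⟩

theorem sound (hP : ∀ x, pi R [(x, true)] ∈ P) (hR : ∀ w ∈ R, ∃ u v, w = up u ++ invRev (up v)) {u v} (h : q R u = q R v) :
    pi R u = pi R v ∧ ∀ y, Rd P u y ↔ Rd P v y := by
  have pos : ∀ u y, Rd P (up u) y ↔ y ∈ P := fun u y => ⟨Rd.mem, by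
    induction u generalizing y with
    | nil => exact id
    | cons x u ih => exact fun h => ⟨h, ih _ (P.mul_mem h (hP x))⟩⟩
  let c : Con (FreeMonoid (X × Bool)) :=
    { r := fun u v => pi R u.toList = pi R v.toList ∧ ∀ y, Rd P u.toList y ↔ Rd P v.toList y
      iseqv := ⟨fun _ => ⟨rfl, fun _ => .rfl⟩, fun h => ⟨h.1.symm, fun y => (h.2 y).symm⟩, fun h k => ⟨h.1.trans k.1, fun y => (h.2 y).trans (k.2 y)⟩⟩
      mul' := fun h k => by simp only [FreeMonoid.toList_mul, pi_app, rd_app, h.1, k.1, h.2, k.2, implies_true, and_self] }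
  refine (show conGen (Rel R) ≤ c from Con.conGen_le.2 fun x y h => ?_) ((Con.eq _).1 h)
  change pi R x.toList = pi R y.toList ∧ ∀ z, Rd P x.toList z ↔ Rd P y.toList z
  obtain ⟨u, a, b⟩ | ⟨u, v, a, b⟩ | ⟨w, hw, a, b⟩ := h <;> rw [a, b] <;> simp only [FreeMonoid.toList_ofList]
  · simp [pi_app, pi_inv, rd_app, rd_inv]
  · simp [pi_app, pi_inv, rd_app, rd_inv, and_comm]
  · refine ⟨pi_rel hw, fun y => ?_⟩
    have e := pi_rel hw
    obtain ⟨u, v, rfl⟩ := hR w hw
    rw [pi_app, pi_inv, mul_inv_eq_one] at e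
    simp [rd_app, e, rd_inv, pos, Rd]

section
variable (ι : X → X) (o : X) {M : Type} [Monoid M] (a : X → M)

def ps (w : List (X × Bool)) : List X := w.map fun p => cond p.2 p.1 (ι p.1)
def nn (w : List (X × Bool)) : ℕ := 2 * w.countP (!·.2)

theorem loc {b : M} (hb : a o * b = 1) (h1 : ∀ x, a x * a o = a o * a x) (h2 : ∀ x, a x * a (ι x) = a o * a o)
    (h3 : ∀ x, a (ι x) * a x = a o * a o) {T : Set (FreeGroup X)} [DecidableEq X] (hT : ∀ r ∈ T, ((ps ι r.toWord).map a).prod = a o ^ nn r.toWord)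
    {u v} (h : (FreeGroup.mk u)⁻¹ * .mk v ∈ Subgroup.normalClosure T) :
    ((ps ι u).map a).prod * a o ^ nn v = ((ps ι v).map a).prod * a o ^ nn u := by
  have cm : ∀ (l : List X) n, Commute (l.map a).prod (a o ^ n) := fun l n =>
    .list_prod_left _ _ (List.forall_mem_map.2 fun x _ => .pow_right (h1 x) n)
  have cn : ∀ n, IsRightRegular (a o ^ n) := fun n => (isRightRegular_of_mul_eq_one hb).pow n
  have ad : ∀ u v : List (X × Bool), nn (u ++ v) = nn u + nn v := by simp [nn, mul_add]
  let c : Con (FreeMonoid (X × Bool)) :=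
    { r := fun u v => ((ps ι u.toList).map a).prod * a o ^ nn v.toList = ((ps ι v.toList).map a).prod * a o ^ nn u.toList
      iseqv := ⟨fun _ => rfl, .symm, fun {u v w} h k => cn (nn v.toList) (by
        dsimp only
        rw [mul_assoc, pow_mul_comm, ← mul_assoc, h, mul_assoc, pow_mul_comm, ← mul_assoc, k, mul_assoc, pow_mul_comm, mul_assoc])⟩
      mul' := fun {u v w z} h k => by
        simp only [FreeMonoid.toList_mul, ps, List.map_append, List.prod_append, ad, pow_add] at h k ⊢
        rw [mul_assoc, ← mul_assoc _ (a o ^ _), (cm _ _).eq, mul_assoc, k, ← mul_assoc, h, mul_assoc, ← mul_assoc (a o ^ _), ← (cm _ _).eq]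
        simp only [mul_assoc] }
  let ψ : FreeGroup X →* c.Quotientˣ := FreeGroup.lift fun x => ⟨c.mk' (.of (x, true)), c.mk' (.of (x, false)),
    c.eq.2 (by simp [c, ps, nn, h2, pow_two]), c.eq.2 (by simp [c, ps, nn, h3, pow_two])⟩
  have e : ∀ w, (ψ (.mk w)).1 = c.mk' (.ofList w) := fun w => by
    induction w with
    | nil => rfl
    | cons p w ih =>
      rw [← List.singleton_append, ← FreeGroup.mul_mk, map_mul, Units.val_mul, ih]
      obtain ⟨x, _ | _⟩ := p <;> simp [ψ]
  have : Subgroup.normalClosure T ≤ ψ.ker := Subgroup.normalClosure_le_normal fun r hr => Units.ext <| by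
    rw [← FreeGroup.mk_toWord (x := r), e]
    exact c.eq.2 (by simpa [c, ps, nn] using hT r hr)
  have := this h
  rw [MonoidHom.mem_ker, map_mul, map_inv, inv_mul_eq_one] at this
  exact c.eq.1 ((e u).symm.trans ((congrArg _ this).trans (e v)))

end

theorem main {k : ℕ} {G : Type} [Group G] (g : Fin k → G) (ι : Fin k → Fin k) (o : Fin k) (h1 : ∀ x, g x * g o = g o * g x)
    (h2 : ∀ x, g x * g (ι x) = g o * g o) (h3 : ∀ x, g (ι x) * g x = g o * g o) (hG : ∀ a b c : G, ⁅⁅a, b⁆, c⁆ = 1)
    (hw : PrimrecPred fun w : List (Fin k × Bool) => FreeGroup.lift g (.mk w) = 1) {l : ℕ → List (Fin k)} (hl : Primrec l)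
    (hu : ¬ ComputablePred fun n => ∃ v : List (Fin k), ((l n).map g).prod = (v.map g).prod * g o ^ (n + 1)) :
    ∃ (R : List (List (Fin k × Bool))),
      (∀ e s : Inv R, IsIdempotentElem e → (∃ f, IsIdempotentElem f ∧ e = f * s) → IsIdempotentElem s) ∧
      (∀ a ∈ Pre R, ∀ b ∈ Pre R, ∃ c ∈ Pre R, ∃ d ∈ Pre R, a * c = b * d) ∧
      ComputablePred (fun p : List (Fin k × Bool) × List (Fin k × Bool) => pi R p.1 = pi R p.2) ∧
      ¬ ComputablePred fun p : List (Fin k × Bool) × List (Fin k × Bool) => q R p.1 = q R p.2 := by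
  obtain ⟨T, hT, hk⟩ := fp_class2 hG (FreeGroup.lift g)
  let A : Set (List (Fin k) × List (Fin k)) := (⋃ x, {([x], [x]), ([x, o], [o, x]), ([x, ι x], [o, o]), ([ι x, x], [o, o])}) ∪
    (fun r => (ps ι r.toWord, List.replicate (nn r.toWord) o)) '' T
  obtain ⟨R, hR⟩ : ∃ R : List (List (Fin k × Bool)), ∀ w, w ∈ R ↔ ∃ p ∈ A, up p.1 ++ invRev (up p.2) = w :=
    ⟨(((Set.finite_iUnion fun _ => Set.toFinite _).union (hT.image _)).image _).toFinset.toList, fun w => by
      rw [Finset.mem_toList, Set.Finite.mem_toFinset]; rfl⟩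
  have ev : ∀ {H : Type} [Group H] (a : Fin k → H), (∀ x, a x * a o = a o * a x) → (∀ x, a (ι x) * a x = a o * a o) →
      ∀ w, FreeGroup.lift a (.mk w) * a o ^ nn w = ((ps ι w).map a).prod := fun a h1 h3 w => by
    induction w with
    | nil => simp [nn, ps]
    | cons p w ih =>
      have : Commute (FreeGroup.lift a (.mk w)) (a o) := by
        rw [FreeGroup.lift_mk]
        refine .list_prod_left _ _ (List.forall_mem_map.2 fun p _ => ?_)
        cases p.2
        exacts [Commute.inv_left (h1 _), h1 _]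
      rw [← List.singleton_append, ← FreeGroup.mul_mk, map_mul]
      obtain ⟨x, _ | _⟩ := p
      · rw [show nn ([(x, false)] ++ w) = 2 + nn w by simp [nn, mul_add, add_comm], pow_add, mul_assoc, ← mul_assoc _ (a o ^ 2), (this.pow_right 2).eq,
          mul_assoc, ih, ← mul_assoc, show FreeGroup.lift a (.mk [(x, false)]) = (a x)⁻¹ by simp, ((Commute.inv_left (h1 x)).pow_right 2).eq, pow_two, ← h3 x]
        simp [ps]
      · rw [show nn ([(x, true)] ++ w) = nn w by simp [nn], mul_assoc, ih]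
        simp [ps]
  have pu : ∀ u, pi R (up u) = (u.map fun x => pi R [(x, true)]).prod := fun u => by
    induction u with
    | nil => rfl
    | cons x u ih => rw [List.map_cons, List.prod_cons, ← ih, ← pi_app]; rfl
  have qu : ∀ u, q R (up u) = (u.map fun x => q R [(x, true)]).prod := fun u => by
    induction u with
    | nil => rfl
    | cons x u ih => rw [List.map_cons, List.prod_cons, ← ih]; rfl
  have pA : ∀ p ∈ A, (p.1.map fun x => pi R [(x, true)]).prod = (p.2.map fun x => pi R [(x, true)]).prod := fun p hp => by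
    simpa only [pi_app, pi_inv, mul_inv_eq_one, pu] using pi_rel ((hR _).2 ⟨p, hp, rfl⟩)
  have mA : ∀ x, ([x], [x]) ∈ A ∧ ([x, o], [o, x]) ∈ A ∧ ([x, ι x], [o, o]) ∈ A ∧ ([ι x, x], [o, o]) ∈ A := fun x => by
    refine ⟨?_, ?_, ?_, ?_⟩ <;> exact .inl (Set.mem_iUnion.2 ⟨x, by simp⟩)
  have q1 : ∀ u, q R (up u) * q R (invRev (up u)) = 1 := fun u => by
    induction u with
    | nil => rfl
    | cons x u ih =>
      rw [show up (x :: u) = up [x] ++ up u from rfl, FreeGroup.invRev_append, q_app, q_app, mul_assoc, ← mul_assoc (q R (up u)), ih, one_mul]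
      exact w3 ((hR _).2 ⟨_, (mA x).1, rfl⟩)
  have qA : ∀ p ∈ A, (p.1.map fun x => q R [(x, true)]).prod = (p.2.map fun x => q R [(x, true)]).prod := fun p hp => by
    rw [← qu, ← qu]
    have a : q R (up p.1) * q R (invRev (up p.2)) = 1 := w3 ((hR _).2 ⟨p, hp, rfl⟩)
    have b := w1 (R := R) (invRev (up p.1 ++ invRev (up p.2)))
    have c := w2 (R := R) (invRev (up p.1)) (invRev (up p.2))
    have d := w1 (R := R) (up p.1 ++ invRev (up p.2))
    simp only [FreeGroup.invRev_append, FreeGroup.invRev_invRev, q_app, a, mul_one, one_mul] at b c d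
    calc _ = q R (up p.2) * (q R (invRev (up p.2)) * q R (up p.2) * (q R (invRev (up p.1)) * q R (up p.1))) := by
          rw [← mul_assoc, ← mul_assoc _ _ (q R (up p.2)), q1, one_mul, ← mul_assoc, d, one_mul]
      _ = _ := by rw [← c, ← mul_assoc, ← mul_assoc _ _ (q R (up p.1)), d, one_mul, ← mul_assoc, a, one_mul]
  have gA : ∀ p ∈ A, (p.1.map g).prod = (p.2.map g).prod := by
    rintro _ (h | ⟨r, h, rfl⟩)
    · obtain ⟨x, rfl | rfl | rfl | rfl⟩ := Set.mem_iUnion.1 h <;> simp [*]
    · simp [← ev g h1 h3, FreeGroup.mk_toWord, show FreeGroup.lift g r = 1 from hk.le (Subgroup.subset_normalClosure h)]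
  have lu : ∀ u, FreeGroup.lift g (.mk (up u)) = (u.map g).prod := by simp [up, Function.comp_def]
  have pl : ∀ w, pi R w = FreeGroup.lift (fun x => pi R [(x, true)]) (.mk w) := fun w => DFunLike.congr_fun
    (show PresentedGroup.mk _ = FreeGroup.lift fun x => pi R [(x, true)] by ext x; simp; rfl) (.mk w)
  have pe := ev (fun x => pi R [(x, true)]) (fun x => by simpa using pA _ (mA x).2.1) fun x => by simpa using pA _ (mA x).2.2.2
  have key : ∀ u v, pi R u = pi R v ↔ FreeGroup.lift g (.mk u) = FreeGroup.lift g (.mk v) := fun u v => ⟨fun h => by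
    refine congrArg (PresentedGroup.toGroup (f := g) ?_) h
    rintro _ ⟨w, hw, rfl⟩
    obtain ⟨p, hp, rfl⟩ := (hR w).1 hw
    rw [← FreeGroup.mul_mk, ← FreeGroup.inv_mk, map_mul, map_inv, lu, lu, gA p hp, mul_inv_cancel], fun h => by
    have := loc ι o (fun x => pi R [(x, true)]) (mul_inv_cancel _) (fun x => by simpa using pA _ (mA x).2.1)
      (fun x => by simpa using pA _ (mA x).2.2.1) (fun x => by simpa using pA _ (mA x).2.2.2) (T := T)
      (fun r hr => by simpa using pA _ (.inr ⟨r, hr, rfl⟩)) (u := u) (v := v) (by rw [hk, MonoidHom.mem_ker, map_mul, map_inv, h, inv_mul_cancel])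
    rwa [← pe, ← pe, ← pl, ← pl, mul_assoc, mul_assoc, pow_mul_comm, mul_left_inj] at this⟩
  have lq : ∀ u v, FreeGroup.lift g (.mk u) = FreeGroup.lift g (.mk v) → _ := fun u v h =>
    loc ι o (fun x => q R [(x, true)]) (q1 [o]) (fun x => by simpa using qA _ (mA x).2.1)
      (fun x => by simpa using qA _ (mA x).2.2.1) (fun x => by simpa using qA _ (mA x).2.2.2) (T := T)
      (fun r hr => by simpa using qA _ (.inr ⟨r, hr, rfl⟩)) (u := u) (v := v) (by rw [hk, MonoidHom.mem_ker, map_mul, map_inv, h, inv_mul_cancel])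
  let P := Submonoid.closure (Set.range fun x => pi R [(x, true)])
  have so := @sound _ R P (fun x => Submonoid.subset_closure ⟨x, rfl⟩) fun w hw => ((hR w).1 hw).elim fun p h => ⟨_, _, h.2.symm⟩
  have mP : ∀ y, y ∈ P ↔ ∃ u, y = pi R (up u) := fun y => ⟨fun h => by
    induction h using Submonoid.closure_induction_left with
    | one => exact ⟨[], rfl⟩
    | mul_left _ h _ _ ih => exact h.elim fun x h => ih.elim fun u k => ⟨x :: u, by rw [← h, k, ← pi_app]; rfl⟩,
    fun ⟨u, h⟩ => h ▸ pu u ▸ list_prod_mem (List.forall_mem_map.2 fun x _ => Submonoid.subset_closure ⟨x, rfl⟩)⟩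
  have hP : ∀ y, y ∈ Pre R ↔ y ∈ P := fun y => ⟨fun ⟨u, ⟨t, h⟩, e⟩ => by
    obtain ⟨v, rfl⟩ := Con.mk'_surjective t
    simpa [e] using ((rd_app ..).1 (((so (u := u ++ v.toList) (v := []) h).2 1).2 P.one_mem)).2.mem,
    fun h => ((mP y).1 h).elim fun u h => ⟨_, ⟨_, q1 u⟩, h⟩⟩
  refine ⟨R, fun e s he ⟨f, hf, h⟩ => ?_, fun a _ b _ => ?_, ?_, fun h => hu ?_⟩
  · obtain ⟨e, rfl⟩ := Con.mk'_surjective e
    obtain ⟨f, rfl⟩ := Con.mk'_surjective f
    obtain ⟨w, rfl⟩ := Con.mk'_surjective s
    have h := (so (u := e.toList) (v := f.toList ++ w.toList) h).1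
    have he := (so (u := e.toList ++ e.toList) (v := e.toList) he).1
    have hf := (so (u := f.toList ++ f.toList) (v := f.toList) hf).1
    rw [pi_app, mul_eq_left] at he hf
    rw [pi_app, he, hf, one_mul] at h
    have : ∀ w, Le (q R w * q R [(o, true)] ^ nn w) ((ps ι w).map fun x => q R [(x, true)]).prod := fun w => by
      induction w with
      | nil => exact ⟨[], rfl⟩
      | cons p w ih =>
        rw [← List.singleton_append, q_app, mul_assoc]
        obtain ⟨x, _ | _⟩ := p
        · obtain ⟨u, ih⟩ := ih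
          refine (Le.left [(x, false)] ⟨u, ?_⟩).trans ⟨[(x, false)], (mul_assoc ..).trans (congrArg _ rfl) |>.symm⟩
          have : Commute ((ps ι w).map fun x => q R [(x, true)]).prod (q R [(o, true)] ^ 2) :=
            .list_prod_left _ _ (List.forall_mem_map.2 fun x _ => .pow_right (show _ * _ = _ * _ by simpa using qA _ (mA x).2.1) 2)
          rw [show nn ([(x, false)] ++ w) = nn w + 2 by simp [nn, mul_add], pow_add, ← mul_assoc, ih, mul_assoc, this.eq, pow_two,
            ← show _ = q R [(o, true)] * q R [(o, true)] by simpa using qA _ (mA x).2.2.1, mul_assoc _ (q R [(ι x, true)])]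
          rfl
        · exact ih.left _
    obtain ⟨u, hu⟩ := this w.toList
    have k := lq w.toList [] ((key ..).1 h.symm)
    simp only [nn, List.countP_nil, mul_zero, pow_zero, mul_one, ps, List.map_nil, List.prod_nil, one_mul] at k hu
    rw [k] at hu
    have := (isRightRegular_of_mul_eq_one (q1 [o])).pow _ hu
    change IsIdempotentElem (q R w.toList)
    rw [this, IsIdempotentElem, ← mul_assoc, w1]
  · have : ∀ a : Gp R, ∃ n, ∀ m, a⁻¹ * pi R [(o, true)] ^ (n + m) ∈ Pre R := fun a => by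
      obtain ⟨⟨w⟩, h⟩ := PresentedGroup.mk_surjective _ a⁻¹
      refine ⟨nn w, fun m => (hP _).2 ?_⟩
      rw [pow_add, ← mul_assoc, ← h, show PresentedGroup.mk _ (Quot.mk _ w) = pi R w from rfl, pl, pe, ← pu]
      exact mul_mem ((mP _).2 ⟨_, rfl⟩) (pow_mem (Submonoid.subset_closure (Set.mem_range_self o)) _)
    obtain ⟨n, h⟩ := this a
    obtain ⟨m, k⟩ := this b
    exact ⟨_, h m, _, k n, by simp [add_comm]⟩
  · have : Primrec fun p : List (Fin k × Bool) × List (Fin k × Bool) => p.1 ++ invRev p.2 := Primrec.list_append.comp .fst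
      (Primrec.list_reverse.comp (Primrec.list_map .snd ((Primrec.dom_finite fun g : Fin k × Bool => (g.1, !g.2)).comp .snd).to₂))
    exact ((hw.comp this).of_eq fun p => by rw [key, ← FreeGroup.mul_mk, ← FreeGroup.inv_mk, map_mul, map_inv, mul_inv_eq_one]).computablePred
  · obtain ⟨c, hc, h⟩ := ComputablePred.computable_iff.1 h
    have a : Primrec fun n => up (l n) ++ invRev (up (List.replicate (n + 1) o)) := Primrec.list_append.comp
      (Primrec.list_map hl ((Primrec.dom_finite fun x : Fin k => (x, true)).comp .snd).to₂)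
      ((Primrec.list_map (Primrec.list_range.comp .succ) (Primrec.const (o, false)).to₂).of_eq (by simp [up, invRev]))
    have b : Primrec fun w : List (Fin k × Bool) => (w ++ invRev w, ([] : List (Fin k × Bool))) := (Primrec.list_append.comp .id
      (Primrec.list_reverse.comp (Primrec.list_map .id ((Primrec.dom_finite fun g : Fin k × Bool => (g.1, !g.2)).comp .snd).to₂))).pair (.const _)
    refine ComputablePred.computable_iff.2 ⟨_, hc.comp (b.comp a).to_comp, funext fun n => ?_⟩
    rw [← congrFun h]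
    refine propext ⟨fun ⟨v, h⟩ => ?_, fun h => ?_⟩
    · have := lq (up (l n)) (up (v ++ List.replicate (n + 1) o)) (by simp [lu, h])
      have z : ∀ u, nn (up u) = 0 ∧ ps ι (up u) = u := by simp [nn, ps, up, Function.comp_def]
      simp only [z, pow_zero, mul_one, ← qu] at this
      have e : q R (up (l n) ++ invRev (up (List.replicate (n + 1) o))) = q R (up v) := by
        rw [q_app, this, up, List.map_append, q_app, mul_assoc]
        exact (congrArg _ (q1 _)).trans (mul_one _)
      have := w1 (R := R) (up (l n) ++ invRev (up (List.replicate (n + 1) o)))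
      rw [e] at this
      rw [q_app, e, ← mul_one (_ * _), ← q1 v, ← mul_assoc, this, q1]
      rfl
    · obtain ⟨v, h⟩ := (mP _).1 ((hP _).1 ⟨_, ⟨_, (q_app ..).symm.trans h⟩, rfl⟩)
      rw [key, ← FreeGroup.mul_mk, ← FreeGroup.inv_mk, map_mul, map_inv, lu, lu, lu, mul_inv_eq_iff_eq_mul] at h
      exact ⟨v, by simpa using h⟩

theorem result : ∃ (k : ℕ) (R : List (List (Fin k × Bool))),
    (∀ e s : Inv R, IsIdempotentElem e → (∃ f, IsIdempotentElem f ∧ e = f * s) → IsIdempotentElem s) ∧
    (∀ a ∈ Pre R, ∀ b ∈ Pre R, ∃ c ∈ Pre R, ∃ d ∈ Pre R, a * c = b * d) ∧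
    ComputablePred (fun p : List (Fin k × Bool) × List (Fin k × Bool) => pi R p.1 = pi R p.2) ∧
    ¬ ComputablePred fun p : List (Fin k × Bool) × List (Fin k × Bool) => q R p.1 = q R p.2 := by
  obtain ⟨W, I, T, _, _, _, B, g, a, b, hu⟩ := exists_sub
  let γ : (T ⊕ Fin 3) × Bool → He (mu B) × Multiplicative ℤ := fun p =>
    (cond p.2 (p.1.elim g ![a, b, 1]) (p.1.elim g ![a, b, 1])⁻¹, .ofAdd (p.1.elim (fun _ => cond p.2 0 2) 1))
  obtain ⟨k, ⟨e⟩⟩ := Finite.exists_equiv_fin ((T ⊕ Fin 3) × Bool)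
  refine ⟨k, main (γ ∘ e.symm) (fun x => e ((e.symm x).1, !(e.symm x).2)) (e (.inr 2, true)) (fun x => by simp [γ, mul_comm])
    (fun x => ?_) (fun x => ?_) (fun a b c => Prod.ext (He.class2 ..) (mul_comm _ _ |> commutatorElement_eq_one_iff_mul_comm.2)) ?_
    (l := fun n => e (.inr 0, true) :: List.replicate n (e (.inr 1, true))) (Primrec.list_cons.comp (.const _)
      ((Primrec.list_map Primrec.list_range (Primrec.const (e (.inr 1, true))).to₂).of_eq (by simp))) fun h => hu (cast (congrArg _ (funext fun n => ?_)) h)⟩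
  · obtain ⟨⟨_ | _, _ | _⟩, rfl⟩ := e.surjective x <;> simp [γ, ← ofAdd_add]
  · obtain ⟨⟨_ | _, _ | _⟩, rfl⟩ := e.surjective x <;> simp [γ, ← ofAdd_add]
  · let δ := fun p : Fin k × Bool => cond p.2 (γ (e.symm p.1)) (γ (e.symm p.1))⁻¹
    refine ((He.wp fun p => (δ p).1).and (LD.rec (f := fun w => (w.map fun p => (δ p).2.toAdd).sum) rfl (by simp)
      ((LD.fin fun p => (δ p).2.toAdd).comp .fst)).zero).of_eq fun w => ?_
    rw [FreeGroup.lift_mk, Prod.ext_iff, ← MonoidHom.coe_fst, ← MonoidHom.coe_snd, map_list_prod, map_list_prod, List.map_map, List.map_map,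
      map_one, map_one, ← toAdd_eq_zero, toAdd_list_sum, List.map_map]
    rfl
  · have : ∀ v : List (Fin k), 0 ≤ (v.map (γ ∘ e.symm)).prod.2.toAdd ∧
        ((v.map (γ ∘ e.symm)).prod.2.toAdd = 0 → (v.map (γ ∘ e.symm)).prod.1 ∈ Submonoid.closure (Set.range g)) := fun v => by
      induction v with
      | nil => simp
      | cons x v ih =>
        obtain ⟨⟨t | _, _ | _⟩, rfl⟩ := e.surjective x <;> simp [γ] at ih ⊢ <;> try omega
        exact ⟨ih.1, fun h => mul_mem (Submonoid.subset_closure ⟨t, rfl⟩) (ih.2 h)⟩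
    refine propext ⟨fun ⟨v, h⟩ => ?_, fun h => ?_⟩
    · simp [γ, Prod.ext_iff, pow_succ'] at h this
      exact h.1 ▸ (this v).2 (by simp [← h.2])
    · obtain ⟨v, h⟩ : ∃ v : List (Fin k), (v.map (γ ∘ e.symm)).prod = (a * b ^ n, 1) := by
        generalize a * b ^ n = y at h
        induction h using Submonoid.closure_induction_left with
        | one => exact ⟨[], rfl⟩
        | mul_left _ h _ _ ih => exact h.elim fun t h => ih.elim fun v k => ⟨e (.inl t, true) :: v, by simp [k, ← h, γ]⟩
      exact ⟨v, by simp [h, γ, pow_succ']⟩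

end Pool.Agent.Results.MP_ff4305_al.Rev
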